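import Pool.Agent.R684.GP.Stm

set_option autoImplicit false

namespace Pool.Agent.R19.GPZF

open Pool.Agent.R684.VG Pool.Agent.R684.GP

variable {X : Type} (H : Subgroup (FreeGroup X))

def aff (m : X → (FreeGroup X ⧸ H) → ℂ) (x : X) : Equiv.Perm ((FreeGroup X ⧸ H) → ℂ) where
  toFun v := fun y => v ((FreeGroup.of x)⁻¹ • y) + m x y
  invFun v := fun y => v ((FreeGroup.of x) • y) - m x ((FreeGroup.of x) • y)
  left_inv v := by
    funext y
    simp
  right_inv v := by
    funext y
    simp

def Th (m : X → (FreeGroup X ⧸ H) → ℂ) : FreeGroup X →* Equiv.Perm ((FreeGroup X ⧸ H) → ℂ) :=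
  FreeGroup.lift (aff H m)

lemma Th_apply (m : X → (FreeGroup X ⧸ H) → ℂ) (g : FreeGroup X) :
    ∀ (v : (FreeGroup X ⧸ H) → ℂ) (y : FreeGroup X ⧸ H),
      Th H m g v y = v (g⁻¹ • y) + Th H m g 0 y := by
  induction g using FreeGroup.induction_on with
  | C1 => intro v y; simp
  | of x =>
    intro v y
    simp [Th, aff]
  | inv_of x hx =>
    intro v y
    have e : ∀ w : (FreeGroup X ⧸ H) → ℂ, Th H m (FreeGroup.of x)⁻¹ w = (aff H m x).symm w := by
      intro w
      rw [map_inv]
      simp [Th]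
    have e' : ∀ w : (FreeGroup X ⧸ H) → ℂ, (aff H m x).symm w =
      fun y => w ((FreeGroup.of x) • y) - m x ((FreeGroup.of x) • y) := fun w => rfl
    change Th H m (FreeGroup.of x)⁻¹ v y = _ + Th H m (FreeGroup.of x)⁻¹ 0 y
    rw [e, e, e', e']
    simp [sub_eq_add_neg]
  | mul a b ha hb =>
    intro v y
    rw [map_mul, Equiv.Perm.mul_apply, Equiv.Perm.mul_apply, ha, ha (Th H m b 0), hb, mul_inv_rev,
      mul_smul, add_assoc]

def ev : Zp (FreeGroup X) H →ₗ[ℂ] (X → (FreeGroup X ⧸ H) → ℂ) where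
  toFun c := fun x => c.1 (FreeGroup.of x)
  map_add' _ _ := rfl
  map_smul' _ _ := rfl

lemma c_one (c : Zp (FreeGroup X) H) : c.1 1 = 0 := by
  funext x
  have := c.2 1 1 x
  simp only [mul_one, inv_one, one_smul] at this
  have h2 : c.1 1 x = 0 := by linear_combination -this
  exact h2

lemma ev_inj : Function.Injective (ev H) := by
  rw [injective_iff_map_eq_zero]
  intro c hc
  have h1 : ∀ x, c.1 (FreeGroup.of x) = 0 := fun x => congrFun hc x
  apply Subtype.ext
  funext g
  induction g using FreeGroup.induction_on with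
  | C1 => exact c_one H c
  | of x => exact h1 x
  | inv_of x hx =>
    funext y
    have h2 := c.2 (FreeGroup.of x)⁻¹ (FreeGroup.of x) y
    rw [inv_mul_cancel, c_one H c, h1 x] at h2
    simp only [Pi.zero_apply, add_zero] at h2
    change c.1 (FreeGroup.of x)⁻¹ y = 0
    exact h2.symm
  | mul a b ha hb =>
    funext y
    have h2 := c.2 a b y
    rw [ha, hb] at h2
    rw [h2]
    simp

lemma ev_surj : Function.Surjective (ev H) := by
  intro m
  refine ⟨⟨fun g => Th H m g 0, fun g h x => ?_⟩, ?_⟩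
  · change Th H m (g * h) 0 x = Th H m g 0 x + Th H m h 0 (g⁻¹ • x)
    rw [map_mul, Equiv.Perm.mul_apply, Th_apply, add_comm]
  · funext x y
    simp [ev, Th, aff]

theorem t_ZF : S_ZF := by
  intro X _ H _
  have e := (LinearEquiv.ofBijective (ev H) ⟨ev_inj H, ev_surj H⟩).finrank_eq
  have : Fintype (FreeGroup X ⧸ H) := Fintype.ofFinite _
  rw [e, Module.finrank_pi_fintype, Finset.sum_const, Module.finrank_fintype_fun_eq_card,
    Finset.card_univ, smul_eq_mul, Subgroup.index, Nat.card_eq_fintype_card]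

end Pool.Agent.R19.GPZF
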